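import Pool.Agent.Q299.LP.Pre

/-!
# Two families of rows signed simultaneously
-/

set_option autoImplicit false

namespace Pool.Agent.Q299.LP

open Finset Real H167BJ H167BK Pool.Agent.Q127.Kom

variable {I K J : Type*} [Fintype I] [Fintype K] [Fintype J]

open Classical in
/-- **Main theorem.** -/
theorem main {r : ℕ} (a : I → J → ℝ) (δ : ℝ) (hδ0 : 0 < δ) (hδ1 : δ ≤ 1)
    (haδ : ∀ i j, |a i j| ≤ δ) (hcol : ∀ j, ∑ i, a i j ^ 2 ≤ 1)
    (g : Fin r → J → ℝ) (hg : ∀ z : J → ℝ, (∀ l, ∑ j, g l j * z j = 0) →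
      ∀ i, ∑ j, a i j * z j = 0)
    (b : K → J → ℝ) (Tb : K → ℝ) (hTb : ∀ i, 0 ≤ Tb i)
    (hR : ∀ F : Finset J,
      20 * ((Finset.univ.filter fun i => Tb i < ∑ v ∈ F, |b i v|).card : ℝ) ≤ F.card)
    (x0 : J → ℝ) (hx0 : ∀ j, |x0 j| ≤ 1) :
    ∃ y : J → ℝ, (∀ j, |y j| = 1) ∧ (∀ j, |x0 j| = 1 → y j = x0 j) ∧
      (∀ i, |∑ j, a i j * (y j - x0 j)| ≤ 200000000 * EE δ (1 + log (1 + r))) ∧
      ∀ i, |∑ j, b i j * (y j - x0 j)| ≤ 2 * Tb i := by
  have hBl0 : Bl b x0 Finset.univ Tb x0 := fun i hi => ⟨fun _ => by simp,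
    fun h z hz hzy => small_of_zero (b i) x0 x0 z _ _ (by simp) h hx0 hz hzy⟩
  obtain ⟨x1, hx1, hg1, hb1, hc1⟩ := pre g b Tb x0 (fun F _ => hR F) _ x0 hx0
    (Finset.Subset.refl _) hBl0 le_rfl
  have ha1 : ∀ i, ∑ j, a i j * (x1 j - x0 j) = 0 := hg (fun j => x1 j - x0 j) hg1
  -- the combined system
  set κ : ℝ := 1 / (1 + ∑ i, ∑ j, |b i j|) with hκ
  have hsum0 : 0 ≤ ∑ i, ∑ j, |b i j| :=
    Finset.sum_nonneg fun _ _ => Finset.sum_nonneg fun _ _ => abs_nonneg _
  have hκ0 : 0 < κ := by rw [hκ]; positivity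
  have hκsum : κ * (1 + ∑ i, ∑ j, |b i j|) = 1 := by
    rw [hκ]; field_simp
  have hcolb : ∀ j, κ * ∑ i, |b i j| ≤ 1 := by
    intro j
    have h1 : ∑ i, |b i j| ≤ ∑ i, ∑ j, |b i j| := Finset.sum_le_sum fun i _ =>
      Finset.single_le_sum (f := fun j => |b i j|) (fun _ _ => abs_nonneg _) (Finset.mem_univ j)
    have h2 := mul_le_mul_of_nonneg_left h1 hκ0.le
    nlinarith
  have hentb : ∀ i j, κ * |b i j| ≤ 1 := by
    intro i j
    have h1 : |b i j| ≤ ∑ i, |b i j| :=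
      Finset.single_le_sum (f := fun i => |b i j|) (fun _ _ => abs_nonneg _) (Finset.mem_univ i)
    exact (mul_le_mul_of_nonneg_left h1 hκ0.le).trans (hcolb j)
  let m : I ⊕ K → J → ℝ := Sum.elim (fun i j => a i j / δ) (fun i j => κ * b i j)
  have hd2 : (1 : ℝ) ≤ 1 / δ ^ 2 := by
    rw [le_div_iff₀ (by positivity)]; nlinarith
  have hd : (1 : ℝ) ≤ 2 / δ ^ 2 := two_div_ge hδ0 hδ1
  have hm1 : ∀ q j, |m q j| ≤ 1 := by
    rintro (i | i) j
    · simp only [m, Sum.elim_inl]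
      rw [abs_div, abs_of_pos hδ0, div_le_one hδ0]
      exact haδ i j
    · simp only [m, Sum.elim_inr]
      rw [abs_mul, abs_of_pos hκ0]
      exact hentb i j
  have hmcol : ∀ j, ∑ q, m q j ^ 2 ≤ 2 / δ ^ 2 := by
    intro j
    rw [Fintype.sum_sum_type]
    simp only [m, Sum.elim_inl, Sum.elim_inr, div_pow]
    rw [← Finset.sum_div]
    have h1 : (∑ i, a i j ^ 2) / δ ^ 2 ≤ 1 / δ ^ 2 :=
      div_le_div_of_nonneg_right (hcol j) (by positivity)
    have h2 : ∑ i, (κ * b i j) ^ 2 ≤ 1 := by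
      calc ∑ i, (κ * b i j) ^ 2 ≤ ∑ i, κ * |b i j| := by
            refine Finset.sum_le_sum fun i _ => ?_
            have h3 := hentb i j
            have h4 : 0 ≤ κ * |b i j| := by positivity
            have h5 : (κ * b i j) ^ 2 = (κ * |b i j|) ^ 2 := by
              rw [mul_pow, mul_pow, sq_abs]
            rw [h5]
            nlinarith
        _ = κ * ∑ i, |b i j| := by rw [Finset.mul_sum]
        _ ≤ 1 := hcolb j
    have : (2 : ℝ) / δ ^ 2 = 1 / δ ^ 2 + 1 / δ ^ 2 := by ring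
    rw [this]
    linarith
  set s : ℝ := 1 + log (1 + r) with hs
  have hr0 : (0 : ℝ) ≤ r := Nat.cast_nonneg r
  have hlog0 : 0 ≤ log (1 + (r : ℝ)) := Real.log_nonneg (by linarith)
  have hs1 : 1 ≤ s := by linarith
  have hN : ((H167FK.Sys.alive x1).card : ℝ) ≤ 2 * r + 1 := by
    have : ((H167FK.Sys.alive x1).card : ℝ) ≤ 2 * r := by exact_mod_cast hc1
    linarith
  have hlog : 2 * log (2 * (2 * r + 1)) ≤ 5 + 2 * s := by
    have h1 : log (2 * (2 * r + 1)) ≤ log (4 * (1 + (r : ℝ))) :=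
      Real.log_le_log (by positivity) (by linarith)
    have h2 : log (4 * (1 + (r : ℝ))) = log 4 + log (1 + (r : ℝ)) :=
      Real.log_mul (by norm_num) (by positivity)
    have h3 : log 4 ≤ 2 := by
      rw [show (4 : ℝ) = 2 ^ 2 by norm_num, Real.log_pow]
      have := Real.log_two_lt_d9
      push_cast
      linarith
    linarith
  let T' : I ⊕ K → ℝ := Sum.elim (fun _ => 0) (fun i => κ * Tb i)
  let R : Finset (I ⊕ K) := (∅ : Finset I).disjSum Finset.univ
  have hRl : ∀ i : I, Sum.inl i ∉ R := fun i hi => by simp [R] at hi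
  have hRr : ∀ i : K, Sum.inr i ∈ R := fun i => by simp [R]
  have hR' : ∀ F ⊆ H167FK.Sys.alive x1,
      20 * ((R.filter fun q => T' q < ∑ v ∈ F, |m q v|).card : ℝ) ≤ F.card := by
    intro F _
    refine le_trans ?_ (hR F)
    have h1 : (R.filter fun q => T' q < ∑ v ∈ F, |m q v|).card ≤
        (Finset.univ.filter fun i => Tb i < ∑ v ∈ F, |b i v|).card := by
      have h2 : (R.filter fun q => T' q < ∑ v ∈ F, |m q v|) ⊆
          (Finset.univ.filter fun i => Tb i < ∑ v ∈ F, |b i v|).map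
            Function.Embedding.inr := by
        intro q hq
        obtain ⟨h3, h4⟩ := Finset.mem_filter.mp hq
        rcases q with i | i
        · exact absurd h3 (hRl i)
        · rw [Finset.mem_map]
          refine ⟨i, Finset.mem_filter.mpr ⟨Finset.mem_univ i, ?_⟩, rfl⟩
          simp only [T', m, Sum.elim_inr, abs_mul, abs_of_pos hκ0] at h4
          rw [← Finset.mul_sum] at h4
          exact lt_of_mul_lt_mul_left h4 hκ0.le
      exact (Finset.card_le_card h2).trans (Finset.card_map _).le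
    have h2 : ((R.filter fun q => T' q < ∑ v ∈ F, |m q v|).card : ℝ) ≤
        (Finset.univ.filter fun i => Tb i < ∑ v ∈ F, |b i v|).card := by exact_mod_cast h1
    linarith
  obtain ⟨y, hy1, hy2, hy3, hy4⟩ := lastB m (2 / δ ^ 2) hd hm1 hmcol x1 hx1.1 (2 * r + 1)
    (by linarith) hN (5 + 2 * s) (by linarith) hlog R T' (by
      rintro (i | i)
      · simp [T']
      · simp only [T', Sum.elim_inr]
        exact mul_nonneg hκ0.le (hTb i)) hR'
  have hybox : ∀ j, |y j| ≤ 1 := fun j => (hy1 j).le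
  refine ⟨y, hy1, fun j hj => ?_, fun i => ?_, fun i => ?_⟩
  · have h1 := hx1.2 j hj
    rw [hy2 j (by rw [h1]; exact hj), h1]
  · have h1 := hy3 (Sum.inl i) (hRl i)
    simp only [m, Sum.elim_inl] at h1
    have h2 : ∑ j, a i j / δ * (y j - x1 j) = (∑ j, a i j * (y j - x1 j)) / δ := by
      rw [Finset.sum_div]
      exact Finset.sum_congr rfl fun j _ => by ring
    rw [h2, abs_div, abs_of_pos hδ0, div_le_iff₀ hδ0] at h1
    have h3 : ∑ j, a i j * (y j - x0 j) = ∑ j, a i j * (y j - x1 j) := by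
      have h4 : ∀ j, a i j * (y j - x0 j) = a i j * (y j - x1 j) + a i j * (x1 j - x0 j) :=
        fun j => by ring
      rw [Finset.sum_congr rfl fun j _ => h4 j, Finset.sum_add_distrib, ha1 i, add_zero]
    rw [h3]
    have h5 := cost_le hδ0 hδ1 s hs1 0
    have h6 : lv s (0 + 1) = s := by rw [lv_succ]; simp
    rw [h6] at h5
    have h7 : KK δ s 0 = H167KN.cst (2 / δ ^ 2) (5 + 2 * s) := by
      unfold KK; rw [h6]
    rw [h7] at h5
    linarith
  · have h1 := hy4 (Sum.inr i) (hRr i)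
    simp only [m, T', Sum.elim_inr] at h1
    have h2 : ∑ j, κ * b i j * (y j - x1 j) = κ * ∑ j, b i j * (y j - x1 j) := by
      rw [Finset.mul_sum]
      exact Finset.sum_congr rfl fun j _ => by ring
    rw [h2, abs_mul, abs_of_pos hκ0] at h1
    have h3 : |∑ j, b i j * (y j - x1 j)| ≤ 2 * Tb i := by
      have : κ * |∑ j, b i j * (y j - x1 j)| ≤ κ * (2 * Tb i) := by linarith
      exact le_of_mul_le_mul_left this hκ0
    by_cases hT : Tb i < ∑ v ∈ H167FK.Sys.alive x1, |b i v|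
    · have h4 := (hb1 i (Finset.mem_univ i)).1 hT
      have h5 : ∑ j, b i j * (y j - x0 j) = ∑ j, b i j * (y j - x1 j) := by
        have h6 : ∀ j, b i j * (y j - x0 j) = b i j * (y j - x1 j) + b i j * (x1 j - x0 j) :=
          fun j => by ring
        rw [Finset.sum_congr rfl fun j _ => h6 j, Finset.sum_add_distrib, h4, add_zero]
      rw [h5]
      exact h3
    · refine (hb1 i (Finset.mem_univ i)).2 (not_lt.mp hT) y hybox fun j hj => ?_
      exact hy2 j (H167FK.Sys.abs_eq_one hx1.1 hj)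

end Pool.Agent.Q299.LP
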