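import Pool.Agent.Q299.LP.Last

/-!
# First phase: reduction to few uncoloured elements
-/

set_option autoImplicit false

namespace Pool.Agent.Q299.LP

open Finset Real H167BJ H167BK

variable {I J : Type*} [Fintype I] [Fintype J]

open Classical in
/-- Moving to a point with at most `2 r` fractional coordinates without changing `r` functionals,
with a second family of rows. -/
theorem pre {r : ℕ} (g : Fin r → J → ℝ) (b : I → J → ℝ) (Tb : I → ℝ) (xb : J → ℝ)
    (hR : ∀ F ⊆ H167FK.Sys.alive xb,
      20 * ((Finset.univ.filter fun i => Tb i < ∑ v ∈ F, |b i v|).card : ℝ) ≤ F.card) :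
    ∀ (n : ℕ) (x : J → ℝ), (∀ j, |x j| ≤ 1) → H167FK.Sys.alive x ⊆ H167FK.Sys.alive xb →
    Bl b xb Finset.univ Tb x → (H167FK.Sys.alive x).card ≤ n →
    ∃ y : J → ℝ, Ext x y ∧ (∀ l, ∑ v, g l v * (y v - x v) = 0) ∧
      Bl b xb Finset.univ Tb y ∧ (H167FK.Sys.alive y).card ≤ 2 * r := by
  intro n
  induction n with
  | zero =>
    intro x hx _ hb hn
    exact ⟨x, ⟨hx, fun _ _ => rfl⟩, fun i => by simp, hb, hn.trans (Nat.zero_le _)⟩
  | succ n ih =>
    intro x hx hxs hb hn
    by_cases hc : (H167FK.Sys.alive x).card ≤ 2 * r
    · exact ⟨x, ⟨hx, fun _ _ => rfl⟩, fun i => by simp, hb, hc⟩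
    · push Not at hc
      set S : Finset I := Finset.univ.filter fun i => Tb i < ∑ v ∈ H167FK.Sys.alive x, |b i v|
        with hS
      have hScard : 20 * S.card ≤ (H167FK.Sys.alive x).card := by
        have := hR _ hxs
        exact_mod_cast this
      obtain ⟨u, huF, ⟨v0, hv0, huv0⟩, hu⟩ := H167BF.exists_direction (H167FK.Sys.alive x)
        ((Finset.univ : Finset (Fin r)).disjSum S)
        (Sum.elim (fun l => H167FK.Sys.lin (g l)) (fun i => H167FK.Sys.lin (b i))) (by
          rw [Finset.card_disjSum, Finset.card_univ, Fintype.card_fin]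
          omega)
      have hu1 : ∀ l, ∑ v, g l v * u v = 0 := by
        intro l
        have := hu (Sum.inl l) (Finset.inl_mem_disjSum.mpr (Finset.mem_univ l))
        simpa [H167FK.Sys.lin_apply] using this
      have hu2 : ∀ i ∈ S, ∑ v, b i v * u v = 0 := by
        intro i hi
        have := hu (Sum.inr i) (Finset.inr_mem_disjSum.mpr hi)
        simpa [H167FK.Sys.lin_apply] using this
      obtain ⟨s, hs0, hs1, k, hk, hkw, hkt⟩ := H167BF.ray_lemma
        (Finset.univ : Finset (J × Bool))
        (fun q => if q.2 then x q.1 else - x q.1) (fun q => if q.2 then u q.1 else - u q.1)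
        (fun _ => 1)
        (by
          rintro ⟨v, b⟩ -
          have := abs_le.mp (hx v)
          cases b <;> simp <;> linarith)
        (by
          rcases lt_or_gt_of_ne huv0 with h | h
          · exact ⟨(v0, false), by simp, by simpa using h⟩
          · exact ⟨(v0, true), by simp, by simpa using h⟩)
      set x' : J → ℝ := fun v => x v + s * u v with hx'
      have hbox : ∀ j, |x' j| ≤ 1 := by
        intro j
        have h1 := hs1 (j, true) (Finset.mem_univ _)
        have h2 := hs1 (j, false) (Finset.mem_univ _)
        simp only [if_true, Bool.false_eq_true, if_false] at h1 h2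
        rw [abs_le]
        constructor
        · simp only [hx']; linarith
        · simp only [hx']; linarith
      have hfroz : ∀ j, |x j| = 1 → x' j = x j := by
        intro j hj
        have h1 : j ∉ H167FK.Sys.alive x := by
          rw [mem_alive]; rw [hj]; exact lt_irrefl _
        simp only [hx', huF j h1, mul_zero, add_zero]
      have hk1 : k.1 ∈ H167FK.Sys.alive x := by
        by_contra hcon
        have h1 := huF k.1 hcon
        rcases hb : k.2 with _ | _
        · rw [hb] at hkw; simp [h1] at hkw
        · rw [hb] at hkw; simp [h1] at hkw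
      have hk2 : k.1 ∉ H167FK.Sys.alive x' := by
        rw [mem_alive]
        intro hlt
        have h3 := abs_lt.mp hlt
        rcases hb : k.2 with _ | _
        · rw [hb] at hkt
          simp only [Bool.false_eq_true, if_false] at hkt
          simp only [hx'] at h3
          linarith [h3.1]
        · rw [hb] at hkt
          simp only [if_true] at hkt
          simp only [hx'] at h3
          linarith [h3.2]
      have hoff : ∀ j ∉ H167FK.Sys.alive x, x' j = x j := fun j hj => by
        simp only [hx', huF j hj, mul_zero, add_zero]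
      have hsub : H167FK.Sys.alive x' ⊆ H167FK.Sys.alive x := by
        intro j hj
        by_contra hcon
        have h1 := hoff j hcon
        rw [mem_alive] at hj hcon
        rw [h1] at hj
        exact hcon hj
      have hlt : (H167FK.Sys.alive x').card < (H167FK.Sys.alive x).card := by
        apply Finset.card_lt_card
        exact ⟨hsub, fun hcon => hk2 (hcon hk1)⟩
      have hline : ∀ c w : J → ℝ, ∑ v, c v * (x' v - w v) = ∑ v, c v * (x v - w v)
          + s * ∑ v, c v * u v := by
        intro c w
        rw [Finset.mul_sum, ← Finset.sum_add_distrib]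
        exact Finset.sum_congr rfl fun v _ => by simp only [hx']; ring
      have hb' : Bl b xb Finset.univ Tb x' := by
        refine hb.next hx hbox hoff fun i hi h => ?_
        rw [hline, (hb i hi).1 h, hu2 i (Finset.mem_filter.mpr ⟨Finset.mem_univ i, h⟩)]
        ring
      obtain ⟨y, hy1, hy2, hy3, hy4⟩ := ih x' hbox (hsub.trans hxs) hb' (by omega)
      refine ⟨y, Ext.trans ⟨hbox, hfroz⟩ hy1, fun l => ?_, hy3, hy4⟩
      have h1 := hy2 l
      have h2 : ∑ v, g l v * (y v - x v) = ∑ v, g l v * (y v - x' v) + s * ∑ v, g l v * u v := by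
        rw [Finset.mul_sum, ← Finset.sum_add_distrib]
        exact Finset.sum_congr rfl fun v _ => by simp only [hx']; ring
      rw [h2, h1, hu1 l]; ring

/-- The vectors `a j` are controlled by `finrank (span (range a))` functionals. -/
theorem rank_funcs {V : Type*} [AddCommGroup V] [Module ℝ V] (a : J → V) (r : ℕ)
    (hr : Module.finrank ℝ (Submodule.span ℝ (Set.range a)) ≤ r) :
    ∃ g : Fin r → J → ℝ, ∀ z : J → ℝ, (∀ l, ∑ j, g l j * z j = 0) → ∑ j, z j • a j = 0 := by
  classical
  set W := Submodule.span ℝ (Set.range a) with hW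
  have : FiniteDimensional ℝ W := FiniteDimensional.span_of_finite ℝ (Set.finite_range a)
  let bs := Module.finBasis ℝ W
  have hmem : ∀ j, a j ∈ W := fun j => Submodule.subset_span ⟨j, rfl⟩
  refine ⟨fun l j => if h : (l : ℕ) < Module.finrank ℝ W then bs.repr ⟨a j, hmem j⟩ ⟨l, h⟩ else 0,
    fun z hz => ?_⟩
  have h1 : (∑ j, z j • (⟨a j, hmem j⟩ : W)) = 0 := by
    rw [← bs.repr.map_eq_zero_iff]
    ext l
    have h2 := hz ⟨l, l.2.trans_le hr⟩
    simp only [l.2, dif_pos] at h2
    rw [map_sum, Finsupp.finsetSum_apply, Finsupp.zero_apply, ← h2]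
    refine Finset.sum_congr rfl fun j _ => ?_
    rw [map_smul, Finsupp.smul_apply, smul_eq_mul, mul_comm]
  have h2 := congrArg (Submodule.subtype W) h1
  rw [map_sum, map_zero] at h2
  simpa using h2

end Pool.Agent.Q299.LP
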