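import Pool.Agent.Q127.Kom.Main

/-!
# Stages with a second family of rows which is blocked while its mass is large

The engine of `H167R2` (after Bansal and Jiang) as used in `Q127.Kom`, with a second family `R` of
rows. A row `i` of `R` is kept fixed as long as the sum of the absolute values of its uncoloured
entries is larger than `Tb i`.
-/

set_option autoImplicit false

namespace Pool.Agent.Q299.LP

open Finset Real Filter Topology H167BJ H167BK H167KL H167KM H167KN

variable {I J T : Type*} [Fintype I] [Fintype J]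

/-- One step on the set of all alive elements, with exact constraints. -/
theorem stepF (P : H167KL.Sys I J T) (hwY : ∀ l < P.L, P.w l ≤ P.Yl l) (x : J → ℝ) (hx : P.Inv x)
    (hpos : 0 < (H167FK.Sys.alive x).card)
    (hI0 : 20 * (P.I0.card : ℝ) ≤ (H167FK.Sys.alive x).card)
    (hgood : ∀ y : J → ℝ, (∀ j, |y j| ≤ 1) → P.f (H167FK.Sys.alive x) y ≤ 2 * P.N →
      P.Mov (H167FK.Sys.alive x) (H167FK.Sys.alive x) y)
    (hW : P.Seen) :
    ∃ y : J → ℝ, P.Inv y ∧ (∀ j ∉ H167FK.Sys.alive x, y j = x j) ∧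
      (H167FK.Sys.alive y).card < (H167FK.Sys.alive x).card := by
  classical
  set A : Finset J := H167FK.Sys.alive x with hA
  have hAx0 : A ⊆ H167FK.Sys.alive P.x0 := hx.alive_sub
  have hxA : ∀ j, j ∉ A → |x j| = 1 := fun j hj => H167FK.Sys.abs_eq_one hx.box hj
  have hxF : x ∈ P.Fs A A x := ⟨fun j _ => rfl, hx.box, hx.zero, hx.bigz, hx.medb⟩
  obtain ⟨y, hyF, hymin⟩ := (P.isCompact_Fs A A x).exists_isMinOn ⟨x, hxF⟩
    (P.continuous_f A).continuousOn
  have hfy : P.f A y ≤ P.f A x := hymin hxF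
  have hfy2 : P.f A y ≤ 2 * P.N := hfy.trans hx.pot
  -- some coordinate gets frozen
  have hfrozen : ∃ j ∈ A, |y j| = 1 := by
    by_contra hcon
    push Not at hcon
    have hlt : ∀ j ∈ A, |y j| < 1 := fun j hj => lt_of_le_of_ne (hyF.2.1 j) (hcon j hj)
    have hmov := hgood y hyF.2.1 hfy2
    obtain ⟨hg1, hg2⟩ := P.mov_spec hwY hyF.2.1 hmov
    have hyF' : y ∈ P.Fs A A y := ⟨fun _ _ => rfl, hyF.2⟩
    refine P.no_min' A A y y hyF' hlt hpos
      (Finset.Subset.refl _) (by convert hmov.big) hI0 hg1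
      (hg2 _ (fun i hi => Finset.mem_filter.mp hi)) (fun i hi => hW A A hAx0 i hi)
      (fun z hz => hymin ⟨fun j hj => ?_, hz.2⟩)
    rw [hz.1 j hj, hyF.1 j hj]
  have hyA : ∀ j ∉ A, |y j| = 1 := fun j hj => by
    rw [hyF.1 j hj]; exact hxA j hj
  have hsub : H167FK.Sys.alive y ⊆ A := by
    intro j hj
    by_contra hjA
    unfold H167FK.Sys.alive at hj
    rw [Finset.mem_filter] at hj
    have := hyA j hjA
    linarith [hj.2]
  have hy1 : ∀ j ∉ H167FK.Sys.alive y, |y j| = 1 := fun j hj => H167FK.Sys.abs_eq_one hyF.2.1 hj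
  set A' : Finset J := H167FK.Sys.alive y with hA'
  have hxy : ∀ j ∉ A, y j = x j := fun j hj => hyF.1 j hj
  have hbig1 := hyF.2.2.2.1
  have hmed1 := hyF.2.2.2.2
  have hbigsub : ∀ i ∈ P.big A', i ∈ P.big A := by
    intro i hi
    obtain ⟨h1, h2, h3⟩ := P.mem_big.mp hi
    exact P.mem_big.mpr ⟨h1, h2.trans_le (P.mass_mono hsub i), h3.trans_le (P.En_mono hsub i)⟩
  refine ⟨y, ⟨hyF.2.1, ?_, hyF.2.2.1, fun i hi => hbig1 i (hbigsub i hi), ?_, ?_, ?_⟩, hxy, ?_⟩
  · intro j hj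
    have h1 := hx.froz j hj
    have h2 : j ∉ A := by
      rw [hA]
      unfold H167FK.Sys.alive
      rw [Finset.mem_filter, h1, hj]
      simp
    rw [hxy j h2, h1]
  · -- medium rows
    intro i hi
    rw [← hA'] at hi ⊢
    obtain ⟨hi1, hi2, hi3, hi4⟩ := P.mem_med.mp hi
    by_cases hb : i ∈ P.big A
    · have h1 := P.reset_zero hyF.2.1 (hbig1 i hb) (P.En_le_l0 hi1 hi3) (P.lev A' i)
        (P.l0_le_lev hi1 hi3) le_rfl
      have h2 := P.half_nonneg (P.lev A' i)
      linarith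
    · by_cases hm : i ∈ P.med A
      · have h1 := (P.V_shrink (P.lev A i) hsub i hyF.2.1).trans (hmed1 i hm)
        rcases (P.lev_mono hsub i).eq_or_lt with h | h
        · rw [← h]; exact h1
        · have h2 := P.reset_lt hyF.2.1 h1 (P.lev A' i) h le_rfl
          have h3 := P.half_nonneg (P.lev A' i)
          linarith
      · exact absurd hi (P.sml_mono hsub hb hm).2
  · -- small rows
    intro i hi1 hib him
    rw [← hA'] at him hib ⊢
    by_cases hb : i ∈ P.big A
    · exact P.sml_of_zero hi1 hib him hyF.2.1 (hbig1 i hb)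
    · by_cases hm : i ∈ P.med A
      · have h1 := (P.V_shrink (P.lev A i) hsub i hyF.2.1).trans (hmed1 i hm)
        exact P.sml_of_V hi1 hib him hyF.2.1 (P.mem_med.mp hm).2.2.2 h1
      · exact (P.Bq_change hsub i hyF.2.1 hxy).trans (hx.smlb i hi1 hb hm)
  · -- potential
    refine le_trans ?_ hfy2
    unfold H167KL.Sys.f
    rw [← hA']
    have h1 : ∑ τ ∈ P.S, P.wt τ * exp (P.Th A' τ y) ≤ ∑ τ ∈ P.S, P.wt τ * exp (P.Th A τ y) := by
      refine Finset.sum_le_sum fun τ hτ => mul_le_mul_of_nonneg_left ?_ (P.hwt τ hτ).le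
      apply exp_le_exp.mpr
      unfold H167KL.Sys.Th
      refine Finset.sum_le_sum fun i _ => Finset.sum_le_sum fun l _ =>
        mul_le_mul_of_nonneg_left ?_ (P.hb0 τ hτ i l)
      exact P.th_mono hsub i l hyF.2.1 hy1 (fun h => hbig1 i h) (fun h => hmed1 i h)
    linarith
  · obtain ⟨j, hjA, hj1⟩ := hfrozen
    apply Finset.card_lt_card
    refine ⟨hsub, fun hcon => ?_⟩
    have := hcon hjA
    unfold H167FK.Sys.alive at this
    rw [Finset.mem_filter] at this
    linarith [this.2]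

/-- The state of the second family of rows. -/
def Bl (a : I → J → ℝ) (x0 : J → ℝ) (R : Finset I) (Tb : I → ℝ) (x : J → ℝ) : Prop :=
  ∀ i ∈ R, (Tb i < ∑ v ∈ H167FK.Sys.alive x, |a i v| → ∑ v, a i v * (x v - x0 v) = 0) ∧
    (∑ v ∈ H167FK.Sys.alive x, |a i v| ≤ Tb i → ∀ z : J → ℝ, (∀ j, |z j| ≤ 1) →
      (∀ j ∉ H167FK.Sys.alive x, z j = x j) → |∑ v, a i v * (z v - x0 v)| ≤ 2 * Tb i)

/-- If the row is zero at `y` and has small mass on the alive elements, it stays small. -/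
theorem small_of_zero (r : J → ℝ) (x0 y z : J → ℝ) (F : Finset J) (m : ℝ)
    (h0 : ∑ v, r v * (y v - x0 v) = 0) (hm : ∑ v ∈ F, |r v| ≤ m) (hy : ∀ j, |y j| ≤ 1)
    (hz : ∀ j, |z j| ≤ 1) (hzy : ∀ j ∉ F, z j = y j) :
    |∑ v, r v * (z v - x0 v)| ≤ 2 * m := by
  classical
  have h1 : ∑ v, r v * (z v - x0 v) = ∑ v ∈ F, r v * (z v - y v) := by
    have h2 : ∑ v, r v * (z v - x0 v) = ∑ v, r v * (z v - y v) := by
      have h3 : ∀ v, r v * (z v - x0 v) = r v * (z v - y v) + r v * (y v - x0 v) := fun v => by ring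
      rw [Finset.sum_congr rfl fun v _ => h3 v, Finset.sum_add_distrib, h0, add_zero]
    rw [h2]
    symm
    refine Finset.sum_subset (Finset.subset_univ F) fun v _ hv => ?_
    rw [hzy v hv, sub_self, mul_zero]
  rw [h1]
  calc |∑ v ∈ F, r v * (z v - y v)| ≤ ∑ v ∈ F, |r v * (z v - y v)| :=
        Finset.abs_sum_le_sum_abs _ _
    _ ≤ ∑ v ∈ F, 2 * |r v| := by
        refine Finset.sum_le_sum fun v _ => ?_
        rw [abs_mul]
        have h2 : |z v - y v| ≤ 2 := by
          have := abs_sub (z v) (y v)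
          have := hz v
          have := hy v
          linarith
        nlinarith [abs_nonneg (r v)]
    _ = 2 * ∑ v ∈ F, |r v| := by rw [Finset.mul_sum]
    _ ≤ 2 * m := by linarith

/-- Passage of the second family to a smaller alive set. -/
theorem Bl.next {a : I → J → ℝ} {x0 : J → ℝ} {R : Finset I} {Tb : I → ℝ} {x y : J → ℝ}
    (h : Bl a x0 R Tb x) (hx : ∀ j, |x j| ≤ 1) (hy : ∀ j, |y j| ≤ 1)
    (hxy : ∀ j ∉ H167FK.Sys.alive x, y j = x j)
    (hz : ∀ i ∈ R, Tb i < ∑ v ∈ H167FK.Sys.alive x, |a i v| → ∑ v, a i v * (y v - x0 v) = 0) :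
    Bl a x0 R Tb y := by
  classical
  have hsub : H167FK.Sys.alive y ⊆ H167FK.Sys.alive x := by
    intro j hj
    by_contra hjA
    have h1 := H167FK.Sys.abs_eq_one hx hjA
    unfold H167FK.Sys.alive at hj
    rw [Finset.mem_filter, hxy j hjA, h1] at hj
    exact lt_irrefl _ hj.2
  intro i hi
  refine ⟨fun h1 => hz i hi (h1.trans_le
    (Finset.sum_le_sum_of_subset_of_nonneg hsub fun _ _ _ => abs_nonneg _)), fun h1 z hz1 hzy => ?_⟩
  by_cases hb : Tb i < ∑ v ∈ H167FK.Sys.alive x, |a i v|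
  · exact small_of_zero (a i) x0 y z _ _ (hz i hi hb) h1 hy hz1 hzy
  · refine (h i hi).2 (not_lt.mp hb) z hz1 fun j hj => ?_
    rw [hzy j (fun h2 => hj (hsub h2)), hxy j hj]

open Classical in
/-- The stage with a second family of rows: everything is coloured. -/
theorem stageB (P : H167KL.Sys I J T) (hwY : ∀ l < P.L, P.w l ≤ P.Yl l) (hI0 : P.I0 = ∅)
    (R : Finset I) (Tb : I → ℝ)
    (hR : ∀ F ⊆ H167FK.Sys.alive P.x0,
      20 * ((R.filter fun i => Tb i < ∑ v ∈ F, |P.a i v|).card : ℝ) ≤ F.card)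
    (hgood : ∀ (F : Finset J) (y : J → ℝ), F ⊆ H167FK.Sys.alive P.x0 →
      1 ≤ F.card → (∀ j, |y j| ≤ 1) → P.f F y ≤ 2 * P.N → P.Mov F F y)
    (hW : P.Seen) :
    ∃ y : J → ℝ, P.Inv y ∧ (H167FK.Sys.alive y).card < 1 ∧ Bl P.a P.x0 R Tb y := by
  have key : ∀ n : ℕ, ∀ x : J → ℝ, P.Inv x → Bl P.a P.x0 R Tb x →
      (H167FK.Sys.alive x).card ≤ n →
      ∃ y : J → ℝ, P.Inv y ∧ (H167FK.Sys.alive y).card < 1 ∧ Bl P.a P.x0 R Tb y := by
    intro n
    induction n with
    | zero =>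
      intro x hx hb hn
      exact ⟨x, hx, by omega, hb⟩
    | succ n ih =>
      intro x hx hb hn
      by_cases hall : (H167FK.Sys.alive x).card < 1
      · exact ⟨x, hx, hall, hb⟩
      · push Not at hall
        let S : Finset I := R.filter fun i => Tb i < ∑ v ∈ H167FK.Sys.alive x, |P.a i v|
        let P' : H167KL.Sys I J T := { P with I0 := S }
        have hS0 : ∀ i ∈ S, P.A i x = 0 := fun i hi => by
          obtain ⟨h1, h2⟩ := Finset.mem_filter.mp hi
          exact (hb i h1).1 h2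
        have hx' : P'.Inv x := ⟨hx.box, hx.froz, hS0, hx.bigz, hx.medb, hx.smlb, hx.pot⟩
        obtain ⟨y, hy1, hy2, hy3⟩ := stepF P' hwY x hx' (by omega) (hR _ hx.alive_sub)
          (fun y hy hf => ⟨(hgood _ y hx.alive_sub hall hy hf).pot,
            (hgood _ y hx.alive_sub hall hy hf).big⟩) hW
        have hy1' : P.Inv y := ⟨hy1.box, hy1.froz, fun i hi => by simp [hI0] at hi, hy1.bigz,
          hy1.medb, hy1.smlb, hy1.pot⟩
        refine ih y hy1' (hb.next hx.box hy1.box hy2 fun i hi h => ?_) (by omega)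
        exact hy1.zero i (Finset.mem_filter.mpr ⟨hi, h⟩)
  refine key _ P.x0 P.inv_base (fun i hi => ⟨fun _ => by simp, fun h z hz hzy => ?_⟩) le_rfl
  exact small_of_zero (P.a i) P.x0 P.x0 z _ _ (by simp) h P.hx0 hz hzy

end Pool.Agent.Q299.LP
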